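import Pool.Agent.H488.R.Cod2
import Pool.Agent.H488.R.Th

/-!
# `π, ζ(3), ζ(5), …` and other unknown numbers: the codimension of near relations

Let `W` be the ring which is generated by the algebraic numbers, the numbers `e^b`, `b` algebraic, and
the iterated integrals from `0` to `1` of words in the forms `dt/t` and `(e^(a t) - 1) dt/t`, `a`
algebraic. Let `w_1, …, w_r` be algebraically independent numbers of `W`, and let `B_i`, `G_i` be
polynomials in `s` variables with algebraic coefficients. We consider the numbers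
`u_i = B_i(y) w_i + G_i(y)` for unknown numbers `y_1, …, y_s`, for instance `π, ζ(3), ζ(5), …`, and all
systems of integral polynomials `P(Y, U)` of degree at most `d` in each variable and height at most
`H` whose values at `(y, u)` are smaller than `c H^(-κ)`: near relations at the scale `H`.

(1) For ANY complex `y_1, …, y_s` the near relations are exact at a point `(y', u')` within `H^(-m)` of
`(y, u)`, of which at least `r` coordinates are algebraically independent; hence at least `r - s` of the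
`u'_i` are. The exponent `κ` depends only on `w, B, G, d, m`, and `c` only on bounds for the `|y_l|` and
the `|B_i(y)|^(-1)`.

(2) Let the `w_i` be algebraically independent together with their complex conjugates. For ANY REAL
`y_1, …, y_s` at least `r - ⌊s/2⌋` of the `u'_i` are algebraically independent: with every near
relation between the `u_i` there is its complex conjugate, with the same unknown numbers `y`.

(3) In particular for one real number `y` the numbers `B_i(y) w_i + G_i(y)`, for instance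
`y + e^(α_i)` or `y e^(α_i)` where the `α_i` are algebraic and linearly independent over `ℚ` together
with their conjugates, are algebraically independent, with a measure polynomial in the height whose
exponent does not depend on `y`. Nothing has to be known on `y`.

(4) Let `T_k(x) = e^(-x) ∑_j (x^j / j!) ∑_(i > j) 1/i^k`, the Poisson mean of the tails of `ζ(k)`. For
`y = (π, ζ(3), …, ζ(2 c + 1))` and the `n + r` numbers `e^(β_j)`, `T_(k_i)(x_i)`, `k_i ≤ 2 c + 2`, at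
least `n + r - (c + 1)` of the coordinates are algebraically independent, and at least
`n + r - ⌊(c + 1)/2⌋` at points which are not real.

(5) For one zeta value, for instance `ζ(3)`, and algebraic points `x_i` which are not real the numbers
`e^(β_j)`, `T_k(x_i)` have a measure of algebraic independence.
-/

set_option autoImplicit false

namespace Pool.Agent.Results.MP_a89d6d_nt.CodimensionOfNearRelations

/-- the integer polynomials in the variables `σ`, of degree at most `d` in every variable,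
with coefficients of absolute value at most `H` -/
def Poly (σ : Type) (d : ℕ) (H : ℝ) : Set (MvPolynomial σ ℤ) :=
  {P | (∀ i, P.degreeOf i ≤ d) ∧ ∀ m, |((P.coeff m : ℤ) : ℝ)| ≤ H}

/-- the iterated integral from `0` to `t` of the word `w`; the letter `a ≠ 0` stands for the form
`(e^(a s) - 1) ds / s` and the letter `0` for the form `ds / s` -/
noncomputable def iterated : List ℂ → ℝ → ℂ
  | [], _ => 1
  | a :: v, t => ∫ s in (0 : ℝ)..t, (if a = 0 then 1 else Complex.exp (a * s) - 1) * iterated v s / s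

/-- the ring generated by the algebraic numbers, the numbers `e^b`, `b` algebraic, and the iterated
integrals from `0` to `1` of the words with algebraic letters, the last of which is not zero -/
def W : Subring ℂ :=
  Subring.closure ({z | IsAlgebraic ℚ z} ∪ {z | ∃ b : ℂ, IsAlgebraic ℚ b ∧ z = Complex.exp b} ∪
    {z | ∃ w : List ℂ, (∀ a ∈ w, IsAlgebraic ℚ a) ∧ (∀ h : w ≠ [], w.getLast h ≠ 0) ∧
      z = iterated w 1})

/-- Each system of polynomials of height at most `H` which are small at `(y, u)` has a common zero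
`(y', u')` within the distance `H ^ (-m)` of `(y, u)` such that as many of its coordinates as there
are numbers `u i` are algebraically independent, and `n` of the coordinates `u' i`. -/
def Law {τ σ : Type} [Fintype σ] (n d m κ : ℕ) (c : ℝ) (y : τ → ℂ) (u : σ → ℂ) : Prop :=
  ∀ H : ℝ, 1 ≤ H → ∀ Ps ⊆ Poly (τ ⊕ σ) d H,
    (∀ P ∈ Ps, ‖MvPolynomial.aeval (Sum.elim y u) P‖ < c / H ^ κ) →
    ∃ (y' : τ → ℂ) (u' : σ → ℂ), (∀ l, ‖y' l - y l‖ ≤ 1 / H ^ m) ∧
      (∀ i, ‖u' i - u i‖ ≤ 1 / H ^ m) ∧ (∀ P ∈ Ps, MvPolynomial.aeval (Sum.elim y' u') P = 0) ∧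
      (∃ S : Finset (τ ⊕ σ), S.card = Fintype.card σ ∧
        AlgebraicIndependent ℚ fun i : S => Sum.elim y' u' i) ∧
      ∃ S : Finset σ, S.card = n ∧ AlgebraicIndependent ℚ fun i : S => u' i

/-- the measure of algebraic independence of the numbers `u i` -/
def Measure {σ : Type} (d κ : ℕ) (c : ℝ) (u : σ → ℂ) : Prop :=
  ∀ H : ℝ, 1 ≤ H → ∀ P ∈ Poly σ d H, P ≠ 0 → c / H ^ κ ≤ ‖MvPolynomial.aeval u P‖

/-- polynomials with algebraic coefficients -/
def AlgCoeff {s : ℕ} (G : MvPolynomial (Fin s) ℂ) : Prop := ∀ m, IsAlgebraic ℚ (G.coeff m)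

/-- the numbers `B_i(y) w_i + G_i(y)` -/
noncomputable def num {r s : ℕ} (B G : Fin r → MvPolynomial (Fin s) ℂ) (w : Fin r → ℂ)
    (y : Fin s → ℂ) (i : Fin r) : ℂ :=
  MvPolynomial.eval y (B i) * w i + MvPolynomial.eval y (G i)

/-- the Poisson mean `T_k(x)` of the tails of `ζ(k)` -/
noncomputable def tailMean (k : ℕ) (x : ℂ) : ℂ :=
  Complex.exp (-x) * ∑' j : ℕ, x ^ j / j.factorial * ∑' i : ℕ, 1 / ((i : ℂ) + j + 1) ^ k

/-- the numbers `e^(β_1), …, e^(β_n), T_(k_1)(x_1), …, T_(k_r)(x_r)` -/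
noncomputable def expTail {n r : ℕ} (β : Fin n → ℂ) (k : Fin r → ℕ) (x : Fin r → ℂ) :
    Fin n ⊕ Fin r → ℂ :=
  Sum.elim (fun j => Complex.exp (β j)) fun i => tailMean (k i) (x i)

/-- algebraic numbers `β_j`, linearly independent over `ℚ`, integers `k_i ≥ 2` and algebraic
numbers `x_i`; the pairs `(k_i, x_i)` are different, no sum `x_i + x_j` is zero -/
def Data {n r : ℕ} (β : Fin n → ℂ) (k : Fin r → ℕ) (x : Fin r → ℂ) : Prop :=
  (∀ j, IsAlgebraic ℚ (β j)) ∧ LinearIndependent ℚ β ∧ (∀ i, 2 ≤ k i) ∧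
    (∀ i, IsAlgebraic ℚ (x i)) ∧ (∀ i j, x i + x j ≠ 0) ∧ Function.Injective fun i => (k i, x i)

/-- the same for the numbers together with their complex conjugates: `β_j, conj β_j` are linearly
independent over `ℚ`, the pairs `(k_i, x_i)`, `(k_j, conj x_j)` are all different and no sum
`x_i + x_j`, `x_i + conj x_j` is zero -/
def ConjData {n r : ℕ} (β : Fin n → ℂ) (k : Fin r → ℕ) (x : Fin r → ℂ) : Prop :=
  Data β k x ∧ LinearIndependent ℚ (Sum.elim β fun j => (starRingEnd ℂ) (β j)) ∧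
    (∀ i j, x i + (starRingEnd ℂ) (x j) ≠ 0) ∧ ∀ i j, (k i, x i) ≠ (k j, (starRingEnd ℂ) (x j))

/-- the numbers `π, ζ(3), ζ(5), …, ζ(2 c + 1)` -/
noncomputable def constants (c : ℕ) : Fin (c + 1) → ℂ :=
  Fin.cons (Real.pi : ℂ) fun j : Fin c => riemannZeta ((2 * (j : ℕ) + 3 : ℕ) : ℂ)

open Pool.Agent.H488.M (Bd Meas vl)
open Pool.Agent.H488.R (un cod_one cod_two meas_th_conj)

lemma iterated_eq (w : List ℂ) : ∀ t : ℝ, iterated w t = Pool.Agent.N902.EW.II w t := by
  induction w with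
  | nil => intro t; rfl
  | cons a v ih =>
    intro t
    rw [iterated, Pool.Agent.N902.EW.II]
    simp only [ih]

lemma mem_W {z : ℂ} (hz : z ∈ W) : z ∈ (Pool.Agent.N902.EW.evA Pool.Agent.N902.EW.io).range := by
  suffices h : W ≤ (Pool.Agent.N902.EW.evA Pool.Agent.N902.EW.io).range from h hz
  refine Subring.closure_le.2 ?_
  rintro z ((hz | ⟨b, hb, rfl⟩) | ⟨w, hw, hw', rfl⟩)
  · obtain ⟨c, rfl⟩ := Pool.Agent.N902.EW.mem_range_io hz
    exact ⟨_, Pool.Agent.N902.EW.evA_algebraMap c⟩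
  · obtain ⟨b', rfl⟩ := Pool.Agent.N902.EW.mem_range_io hb
    refine ⟨Pool.Agent.N902.EW.mk b' [] Pool.Agent.N902.EW.adm_nil, ?_⟩
    rw [Pool.Agent.N902.EW.evA_mk, Pool.Agent.N902.EW.evk_ex, Pool.Agent.N902.EW.U_nil,
      Pool.Agent.N902.EW.evk_one, mul_one]
  · obtain ⟨v, rfl, hv⟩ := Pool.Agent.N902.EW.exists_word (w := w) ⟨hw, hw'⟩
    refine ⟨Pool.Agent.N902.EW.mk 0 v hv, ?_⟩
    rw [Pool.Agent.N902.EW.evA_mk, Pool.Agent.N902.EW.evk_ex_zero, one_mul, iterated_eq,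
      Pool.Agent.N902.EW.II_one v hv]

lemma iterated_conj (w : List ℂ) : ∀ t : ℝ, (starRingEnd ℂ) (iterated w t) =
    iterated (w.map (starRingEnd ℂ)) t := by
  induction w with
  | nil => intro t; simp [iterated]
  | cons a v ih =>
    intro t
    rw [List.map_cons, iterated, iterated, ← intervalIntegral.intervalIntegral_conj]
    refine intervalIntegral.integral_congr fun s _ => ?_
    have h0 : (starRingEnd ℂ) a = 0 ↔ a = 0 := map_eq_zero _
    by_cases h : a = 0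
    · simp only [h, map_zero, if_true, one_mul, map_div₀, ih, Complex.conj_ofReal]
    · have h' : (starRingEnd ℂ) a ≠ 0 := fun h1 => h (h0.1 h1)
      simp only [if_neg h, if_neg h', map_div₀, map_mul, map_sub, map_one, ih, Complex.conj_ofReal,
        ← Complex.exp_conj]

lemma conj_W {z : ℂ} (hz : z ∈ W) : (starRingEnd ℂ) z ∈ W := by
  suffices h : W ≤ W.comap (starRingEnd ℂ) from h hz
  refine Subring.closure_le.2 ?_
  rintro z ((hz | ⟨b, hb, rfl⟩) | ⟨w, hw, hw', rfl⟩)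
  · exact Subring.subset_closure (Or.inl (Or.inl (Pool.Agent.H596.Q.conj_alg z hz)))
  · refine Subring.subset_closure (Or.inl (Or.inr ⟨(starRingEnd ℂ) b,
      Pool.Agent.H596.Q.conj_alg b hb, ?_⟩))
    rw [Complex.exp_conj]
  · refine Subring.subset_closure (Or.inr ⟨w.map (starRingEnd ℂ), fun a ha => ?_, fun h => ?_, ?_⟩)
    · obtain ⟨a', ha', rfl⟩ := List.mem_map.1 ha
      exact Pool.Agent.H596.Q.conj_alg a' (hw a' ha')
    · rw [List.getLast_map]
      have h0 : w ≠ [] := fun h1 => h (by rw [h1]; rfl)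
      intro h1
      exact hw' h0 ((map_eq_zero _).1 h1)
    · rw [← iterated_conj]

lemma vl_eq' {ρ : Type} (x : ρ → ℂ) (P : MvPolynomial ρ ℤ) : vl x P = MvPolynomial.aeval x P := rfl

/-- complex numbers -/
theorem law_complex {σ : Type} [Fintype σ] {s : ℕ} (w : σ → ℂ) (hw : Meas w)
    (B G : σ → MvPolynomial (Fin s) ℂ) (hB : ∀ i, AlgCoeff (B i)) (hG : ∀ i, AlgCoeff (G i)) (d m : ℕ) :
    ∃ κ : ℕ, ∀ R ρ : ℝ, 0 < ρ → ∃ c : ℝ, 0 < c ∧ ∀ y : Fin s → ℂ, (∀ l, ‖y l‖ ≤ R) →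
      (∀ i, ρ ≤ ‖MvPolynomial.eval y (B i)‖) →
      Law (Fintype.card σ - s) d m κ c y (un B G y w) := by
  obtain ⟨κ, h⟩ := cod_one w hw B G hB hG d m
  refine ⟨κ, fun R ρ hρ => ?_⟩
  obtain ⟨c, hc, h⟩ := h R ρ hρ
  refine ⟨c, hc, fun y hy hl H hH Ps hPs hsm => ?_⟩
  obtain ⟨y', z, h1, h2, h3, h4, h5⟩ := h y hy hl H hH Ps (fun P hP => hPs hP) hsm
  rw [Fintype.card_fin] at h5
  exact ⟨y', z, h1, h2, h3, h4, h5⟩

/-- real numbers -/
theorem law_real {σ : Type} [Fintype σ] {s : ℕ} (w : σ → ℂ)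
    (hw : Meas (Sum.elim w fun i => (starRingEnd ℂ) (w i)))
    (B G : σ → MvPolynomial (Fin s) ℂ) (hB : ∀ i, AlgCoeff (B i)) (hG : ∀ i, AlgCoeff (G i)) (d m : ℕ) :
    ∃ κ : ℕ, ∀ R ρ : ℝ, 0 < ρ → ∃ c : ℝ, 0 < c ∧ ∀ y : Fin s → ℝ, (∀ l, |y l| ≤ R) →
      (∀ i, ρ ≤ ‖MvPolynomial.eval (fun l => (y l : ℂ)) (B i)‖) →
      Law (Fintype.card σ - s / 2) d m κ c (fun l => (y l : ℂ)) (un B G (fun l => (y l : ℂ)) w) := by
  obtain ⟨κ, h⟩ := cod_two w hw B G hB hG d m
  refine ⟨κ, fun R ρ hρ => ?_⟩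
  obtain ⟨c, hc, h⟩ := h R ρ hρ
  refine ⟨c, hc, fun y hy hl H hH Ps hPs hsm => ?_⟩
  obtain ⟨y', z, h1, h2, h3, h4, h5⟩ := h y hy hl H hH Ps (fun P hP => hPs hP) hsm
  rw [Fintype.card_fin] at h5
  exact ⟨y', z, h1, h2, h3, h4, h5⟩

/-- one relation -/
lemma measure_of_law {τ σ : Type} [Fintype τ] [Fintype σ] {d m κ : ℕ} {c : ℝ} {y : τ → ℂ}
    {u : σ → ℂ} (h : Law (Fintype.card σ) d m κ c y u) : Measure d κ c u := by
  classical
  intro H hH P hP hP0
  by_contra hcon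
  push Not at hcon
  have hinj : Function.Injective (Sum.inr : σ → τ ⊕ σ) := Sum.inr_injective
  obtain ⟨y', u', -, -, h1, -, S, hS, hind⟩ := h H hH {MvPolynomial.rename Sum.inr P} (by
    rw [Set.singleton_subset_iff]
    refine ⟨fun o => ?_, fun m => ?_⟩
    · exact Pool.Agent.H596.Q.ren_degree_le _ hinj P d hP.1 o
    · exact Pool.Agent.H596.Q.ren_coeff _ hinj P H (by linarith) hP.2 m) (by
    intro Q hQ
    rw [Set.mem_singleton_iff.1 hQ, MvPolynomial.aeval_rename]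
    exact hcon)
  have hSu : S = Finset.univ := Finset.eq_univ_of_card S hS
  have h2 := h1 _ (Set.mem_singleton _)
  rw [MvPolynomial.aeval_rename] at h2
  have h3 : AlgebraicIndependent ℚ u' := by
    have h4 := hind.comp (fun i : σ => (⟨i, by rw [hSu]; exact Finset.mem_univ i⟩ : S)) (by
      intro i j hij
      exact congrArg Subtype.val hij)
    exact h4
  have h5 : AlgebraicIndependent ℤ u' := h3.restrictScalars (RingHom.injective_int (algebraMap ℤ ℚ))
  exact hP0 ((algebraicIndependent_iff.1 h5) P h2)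

/-- the numbers of `W` have a measure -/
lemma meas_of_W {r : ℕ} (w : Fin r → ℂ) (hw : ∀ i, w i ∈ W) (h : AlgebraicIndependent ℚ w) : Meas w :=
  Pool.Agent.H488.E.meas_range _ (fun i => mem_W (hw i)) h

lemma meas_of_W_conj {r : ℕ} (w : Fin r → ℂ) (hw : ∀ i, w i ∈ W)
    (h : AlgebraicIndependent ℚ (Sum.elim w fun i => (starRingEnd ℂ) (w i))) :
    Meas (Sum.elim w fun i => (starRingEnd ℂ) (w i)) := by
  refine Pool.Agent.H488.E.meas_range _ ?_ h
  rintro (i | i)
  · exact mem_W (hw i)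
  · exact mem_W (conj_W (hw i))

/-- the independent numbers -/
noncomputable def base {n r : ℕ} (β : Fin n → ℂ) (k : Fin r → ℕ) (x : Fin r → ℂ) :
    Fin n ⊕ Fin r → ℂ :=
  Sum.elim (fun j => Complex.exp (β j)) fun i => Pool.Agent.N902.EW.PS (k i) (x i)

lemma meas_base {n r : ℕ} (β : Fin n → ℂ) (k : Fin r → ℕ) (x : Fin r → ℂ) (h : Data β k x) :
    Meas (base β k x) := by
  obtain ⟨h1, h2, h3, h4, h5, h6⟩ := h
  have h7 := Pool.Agent.H488.E.meas_th (κ₁ := Fin 0) Fin.elim0 Fin.elim0 k x β (fun i => i.elim0)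
    (fun i => i.elim0) (fun i => i.elim0) h3 h4 h5 h6 h1 h2
  have h8 := h7.comp (fun o : Fin n ⊕ Fin r => (Sum.elim Sum.inr fun i => Sum.inl (Sum.inr i) :
    Fin n ⊕ Fin r → (Fin 0 ⊕ Fin r) ⊕ Fin n) o) (by
    rintro (i | i) (j | j) h <;> simp at h <;> simp [h])
  have h9 : (fun o : Fin n ⊕ Fin r => (Sum.elim (Pool.Agent.H488.E.th Fin.elim0 Fin.elim0 k x)
      (fun i => Complex.exp (β i)) : (Fin 0 ⊕ Fin r) ⊕ Fin n → ℂ)
      ((Sum.elim Sum.inr fun i => Sum.inl (Sum.inr i) :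
        Fin n ⊕ Fin r → (Fin 0 ⊕ Fin r) ⊕ Fin n) o)) = base β k x := by
    funext o
    rcases o with j | i <;> rfl
  rw [h9] at h8
  exact h8

lemma meas_base_conj {n r : ℕ} (β : Fin n → ℂ) (k : Fin r → ℕ) (x : Fin r → ℂ)
    (h : ConjData β k x) :
    Meas (Sum.elim (base β k x) fun o => (starRingEnd ℂ) (base β k x o)) := by
  obtain ⟨⟨h1, h2, h3, h4, h5, h6⟩, h2', h5', h6'⟩ := h
  have h7 := meas_th_conj (κ₁ := Fin 0) Fin.elim0 Fin.elim0 k x β (fun i => i.elim0)
    (fun i => i.elim0) (fun i => i.elim0) (fun i => i.elim0) h3 h4 h5 h5' h6 h6' h1 h2'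
  obtain ⟨f, hf⟩ : ∃ f : Fin n ⊕ Fin r → (Fin 0 ⊕ Fin r) ⊕ Fin n,
      f = Sum.elim Sum.inr fun i => Sum.inl (Sum.inr i) := ⟨_, rfl⟩
  have hfi : Function.Injective f := by
    rw [hf]
    rintro (i | i) (j | j) h <;> simp at h <;> simp [h]
  have h8 := h7.comp (Sum.map f f) (hfi.sumMap hfi)
  have h9 : ∀ o, (Sum.elim (Pool.Agent.H488.E.th Fin.elim0 Fin.elim0 k x)
      (fun i => Complex.exp (β i)) : (Fin 0 ⊕ Fin r) ⊕ Fin n → ℂ) (f o) = base β k x o := by
    intro o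
    rw [hf]
    rcases o with j | i <;> rfl
  have h10 : (fun i => (Sum.elim (Sum.elim (Pool.Agent.H488.E.th Fin.elim0 Fin.elim0 k x)
      fun i => Complex.exp (β i)) fun i => (starRingEnd ℂ)
      ((Sum.elim (Pool.Agent.H488.E.th Fin.elim0 Fin.elim0 k x) fun i => Complex.exp (β i) :
        (Fin 0 ⊕ Fin r) ⊕ Fin n → ℂ) i)) (Sum.map f f i)) =
      Sum.elim (base β k x) fun o => (starRingEnd ℂ) (base β k x o) := by
    funext i
    rcases i with i | i
    · exact h9 i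
    · exact congrArg (starRingEnd ℂ) (h9 i)
  rw [h10] at h8
  exact h8

/-- the coefficients for the Poisson means -/
noncomputable def cB {n r s : ℕ} : Fin n ⊕ Fin r → MvPolynomial (Fin s) ℂ :=
  Sum.elim (fun _ => 1) fun _ => MvPolynomial.C (-1)

noncomputable def cG {n r s : ℕ} (g : Fin r → MvPolynomial (Fin s) ℂ) :
    Fin n ⊕ Fin r → MvPolynomial (Fin s) ℂ :=
  Sum.elim (fun _ => 0) g

lemma algCoeff_C {s : ℕ} (a : ℂ) (ha : IsAlgebraic ℚ a) :
    AlgCoeff (MvPolynomial.C a : MvPolynomial (Fin s) ℂ) := by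
  classical
  intro m
  rw [MvPolynomial.coeff_C]
  split_ifs
  · exact ha
  · exact isAlgebraic_zero

lemma algCoeff_zero {s : ℕ} : AlgCoeff (0 : MvPolynomial (Fin s) ℂ) := fun m => by
  rw [MvPolynomial.coeff_zero]; exact isAlgebraic_zero

lemma algCoeff_one {s : ℕ} : AlgCoeff (1 : MvPolynomial (Fin s) ℂ) := by
  have := algCoeff_C (s := s) 1 isAlgebraic_one
  rwa [map_one] at this

lemma algCoeff_monomial {s : ℕ} (μ : Fin s →₀ ℕ) (a : ℂ) (ha : IsAlgebraic ℚ a) :
    AlgCoeff (MvPolynomial.monomial μ a) := by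
  classical
  intro m
  rw [MvPolynomial.coeff_monomial]
  split_ifs
  · exact ha
  · exact isAlgebraic_zero

lemma algCoeff_X {s : ℕ} (i : Fin s) : AlgCoeff (MvPolynomial.X i : MvPolynomial (Fin s) ℂ) :=
  algCoeff_monomial _ 1 isAlgebraic_one

lemma cB_alg {n r s : ℕ} (i : Fin n ⊕ Fin r) : AlgCoeff (cB (s := s) i) := by
  rcases i with i | i
  · exact algCoeff_one
  · exact algCoeff_C _ (isAlgebraic_one.neg)

lemma cG_alg {n r s : ℕ} (g : Fin r → MvPolynomial (Fin s) ℂ) (hg : ∀ i, AlgCoeff (g i))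
    (i : Fin n ⊕ Fin r) : AlgCoeff (cG g i) := by
  rcases i with i | i
  · exact algCoeff_zero
  · exact hg i

lemma expTail_eq {n r s : ℕ} (β : Fin n → ℂ) (k : Fin r → ℕ) (x : Fin r → ℂ) (hk : ∀ i, 2 ≤ k i)
    (g : Fin r → MvPolynomial (Fin s) ℂ) (y : Fin s → ℂ)
    (hg : ∀ i, MvPolynomial.eval y (g i) = riemannZeta (k i)) :
    un cB (cG g) y (base β k x) = expTail β k x := by
  funext i
  rcases i with i | i
  · simp [un, cB, cG, base, expTail]
  · have h := Pool.Agent.N902.EW.zeta_split (hk i) (x i)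
    rw [← hg i] at h
    simp only [un, cB, cG, base, expTail, Sum.elim_inr, MvPolynomial.eval_C]
    change -1 * Pool.Agent.N902.EW.PS (k i) (x i) + MvPolynomial.eval y (g i) =
      Pool.Agent.N902.EW.PT (k i) (x i)
    rw [h]
    ring

lemma cB_low {n r s : ℕ} (y : Fin s → ℂ) (i : Fin n ⊕ Fin r) :
    (1 : ℝ) ≤ ‖MvPolynomial.eval y (cB (s := s) i)‖ := by
  rcases i with i | i
  · simp [cB]
  · simp [cB]

lemma zeta_real (m : ℕ) (hm : 2 ≤ m) : riemannZeta (m : ℂ) = (((riemannZeta (m : ℂ)).re : ℝ) : ℂ) := by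
  have h : (starRingEnd ℂ) (riemannZeta (m : ℂ)) = riemannZeta (m : ℂ) := by
    rw [zeta_nat_eq_tsum_of_gt_one (by omega), Complex.conj_tsum]
    refine tsum_congr fun n => ?_
    rw [map_div₀, map_one, map_pow, map_natCast]
  exact (Complex.conj_eq_iff_re.1 h).symm

/-- the constants are real numbers -/
noncomputable def rc (c : ℕ) : Fin (c + 1) → ℝ :=
  Fin.cons Real.pi fun j : Fin c => (riemannZeta ((2 * (j : ℕ) + 3 : ℕ) : ℂ)).re

lemma rc_eq (c : ℕ) : (fun l => (rc c l : ℂ)) = constants c := by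
  funext l
  refine Fin.cases ?_ (fun j => ?_) l
  · simp [rc, constants]
  · simp only [rc, constants, Fin.cons_succ]
    exact (zeta_real _ (by omega)).symm

/-- the zeta values as polynomials in the constants -/
lemma zeta_poly (c m : ℕ) (h2 : 2 ≤ m) (hm : m ≤ 2 * c + 2) :
    ∃ g : MvPolynomial (Fin (c + 1)) ℂ, AlgCoeff g ∧ MvPolynomial.eval (constants c) g = riemannZeta m := by
  rcases Nat.even_or_odd' m with ⟨j, hj | hj⟩
  · obtain ⟨q, hq⟩ : ∃ q : ℚ, q = (-1) ^ (j + 1) * 2 ^ (2 * j - 1) *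
        bernoulli (2 * j) / (2 * j).factorial := ⟨_, rfl⟩
    refine ⟨MvPolynomial.monomial (Finsupp.single 0 (2 * j)) (q : ℂ), algCoeff_monomial _ _ ?_, ?_⟩
    · exact isAlgebraic_algebraMap (R := ℚ) q
    · have h1 := riemannZeta_two_mul_nat (show j ≠ 0 by omega)
      rw [MvPolynomial.eval_monomial, Finsupp.prod_single_index (by simp)]
      have h3 : constants c 0 = (Real.pi : ℂ) := rfl
      rw [h3, hq, hj]
      push_cast
      rw [h1]
      ring
  · have hj2 : j - 1 < c := by omega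
    refine ⟨MvPolynomial.X (Fin.succ ⟨j - 1, hj2⟩), algCoeff_X _, ?_⟩
    rw [MvPolynomial.eval_X, constants, Fin.cons_succ]
    have h3 : 2 * (j - 1) + 3 = m := by omega
    rw [h3]

lemma bound_R {s : ℕ} (y : Fin s → ℂ) : ∀ l, ‖y l‖ ≤ ∑ l, ‖y l‖ := fun l =>
  Finset.single_le_sum (f := fun l => ‖y l‖) (fun _ _ => norm_nonneg _) (Finset.mem_univ l)

theorem laws_constants {n r : ℕ} (β : Fin n → ℂ) (k : Fin r → ℕ) (x : Fin r → ℂ) (c : ℕ)
    (hk : ∀ i, k i ≤ 2 * c + 2) (d m : ℕ) :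
    (Data β k x → ∃ κ : ℕ, ∃ a : ℝ, 0 < a ∧
      Law (n + r - (c + 1)) d m κ a (constants c) (expTail β k x)) ∧
    (ConjData β k x → ∃ κ : ℕ, ∃ a : ℝ, 0 < a ∧
      Law (n + r - (c + 1) / 2) d m κ a (constants c) (expTail β k x)) := by
  constructor
  · intro h
    choose g hg hg' using fun i => zeta_poly c (k i) (h.2.2.1 i) (hk i)
    obtain ⟨κ, h1⟩ := law_complex (base β k x) (meas_base β k x h) cB (cG g)
      cB_alg (cG_alg g hg) d m
    obtain ⟨a, ha, h1⟩ := h1 (∑ l, ‖constants c l‖) 1 one_pos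
    refine ⟨κ, a, ha, ?_⟩
    have h2 := h1 (constants c) (bound_R _) (cB_low _)
    rw [expTail_eq β k x h.2.2.1 g _ hg'] at h2
    simpa using h2
  · intro h
    choose g hg hg' using fun i => zeta_poly c (k i) (h.1.2.2.1 i) (hk i)
    obtain ⟨κ, h1⟩ := law_real (base β k x) (meas_base_conj β k x h) cB (cG g)
      cB_alg (cG_alg g hg) d m
    obtain ⟨a, ha, h1⟩ := h1 (∑ l, ‖constants c l‖) 1 one_pos
    refine ⟨κ, a, ha, ?_⟩
    have h2 := h1 (rc c) (fun l => by
      have h3 := bound_R (constants c) l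
      rw [← rc_eq] at h3
      rw [← rc_eq]
      simpa using h3) (by rw [rc_eq]; exact cB_low _)
    rw [rc_eq, expTail_eq β k x h.1.2.2.1 g _ hg'] at h2
    simpa using h2

theorem measure_one {n r : ℕ} (β : Fin n → ℂ) (k : Fin r → ℕ) (x : Fin r → ℂ)
    (h : ConjData β k x) (hk : ∀ i j, k i = k j) (d : ℕ) :
    ∃ κ : ℕ, ∃ a : ℝ, 0 < a ∧ Measure d κ a (expTail β k x) := by
  obtain ⟨m, hm, hkm⟩ : ∃ m, 2 ≤ m ∧ ∀ i, k i = m := by
    rcases Nat.eq_zero_or_pos r with h0 | h0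
    · exact ⟨2, le_rfl, fun i => absurd i.2 (by omega)⟩
    · exact ⟨k ⟨0, h0⟩, h.1.2.2.1 _, fun i => hk _ _⟩
  obtain ⟨κ, h1⟩ := law_real (s := 1) (base β k x) (meas_base_conj β k x h) cB
    (cG fun _ => MvPolynomial.X 0) cB_alg (cG_alg _ fun _ => algCoeff_X 0) d 0
  obtain ⟨a, ha, h1⟩ := h1 |(riemannZeta m).re| 1 one_pos
  refine ⟨κ, a, ha, ?_⟩
  have h2 := h1 (fun _ => (riemannZeta m).re) (fun _ => le_rfl) (cB_low _)
  rw [expTail_eq β k x h.1.2.2.1 _ _ (fun i => by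
    rw [MvPolynomial.eval_X, hkm i]; exact (zeta_real m hm).symm)] at h2
  exact measure_of_law (by simpa using h2)

/-- **The codimension of near relations.** -/
theorem result :
    -- (1) arbitrary complex numbers
    (∀ (r s : ℕ) (w : Fin r → ℂ), (∀ i, w i ∈ W) → AlgebraicIndependent ℚ w →
      ∀ B G : Fin r → MvPolynomial (Fin s) ℂ, (∀ i, AlgCoeff (B i)) → (∀ i, AlgCoeff (G i)) →
      ∀ d m : ℕ, ∃ κ : ℕ, ∀ R ρ : ℝ, 0 < ρ → ∃ c : ℝ, 0 < c ∧ ∀ y : Fin s → ℂ, (∀ l, ‖y l‖ ≤ R) →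
        (∀ i, ρ ≤ ‖MvPolynomial.eval y (B i)‖) → Law (r - s) d m κ c y (num B G w y)) ∧
    -- (2) arbitrary real numbers
    (∀ (r s : ℕ) (w : Fin r → ℂ), (∀ i, w i ∈ W) →
      AlgebraicIndependent ℚ (Sum.elim w fun i => (starRingEnd ℂ) (w i)) →
      ∀ B G : Fin r → MvPolynomial (Fin s) ℂ, (∀ i, AlgCoeff (B i)) → (∀ i, AlgCoeff (G i)) →
      ∀ d m : ℕ, ∃ κ : ℕ, ∀ R ρ : ℝ, 0 < ρ → ∃ c : ℝ, 0 < c ∧ ∀ y : Fin s → ℝ, (∀ l, |y l| ≤ R) →
        (∀ i, ρ ≤ ‖MvPolynomial.eval (fun l => (y l : ℂ)) (B i)‖) →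
        Law (r - s / 2) d m κ c (fun l => (y l : ℂ)) (num B G w fun l => (y l : ℂ))) ∧
    -- (3) one real number
    (∀ (r : ℕ) (w : Fin r → ℂ), (∀ i, w i ∈ W) →
      AlgebraicIndependent ℚ (Sum.elim w fun i => (starRingEnd ℂ) (w i)) →
      ∀ B G : Fin r → MvPolynomial (Fin 1) ℂ, (∀ i, AlgCoeff (B i)) → (∀ i, AlgCoeff (G i)) →
      ∀ d : ℕ, ∃ κ : ℕ, ∀ R ρ : ℝ, 0 < ρ → ∃ c : ℝ, 0 < c ∧ ∀ y : ℝ, |y| ≤ R →
        (∀ i, ρ ≤ ‖MvPolynomial.eval (fun _ => (y : ℂ)) (B i)‖) →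
        Measure d κ c (num B G w fun _ => (y : ℂ))) ∧
    -- (4) the numbers `π, ζ(3), …, ζ(2 c + 1)`, exponentials and Poisson means of tails
    (∀ (c n r : ℕ) (β : Fin n → ℂ) (k : Fin r → ℕ) (x : Fin r → ℂ), (∀ i, k i ≤ 2 * c + 2) →
      ∀ d m : ℕ, (Data β k x → ∃ κ : ℕ, ∃ a : ℝ, 0 < a ∧
          Law (n + r - (c + 1)) d m κ a (constants c) (expTail β k x)) ∧
        (ConjData β k x → ∃ κ : ℕ, ∃ a : ℝ, 0 < a ∧
          Law (n + r - (c + 1) / 2) d m κ a (constants c) (expTail β k x))) ∧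
    -- (5) Poisson means of the tails of one zeta value
    (∀ (n r : ℕ) (β : Fin n → ℂ) (k : Fin r → ℕ) (x : Fin r → ℂ), ConjData β k x →
      (∀ i j, k i = k j) → ∀ d : ℕ, ∃ κ : ℕ, ∃ a : ℝ, 0 < a ∧ Measure d κ a (expTail β k x)) := by
  refine ⟨fun r s w hw h B G hB hG d m => ?_, fun r s w hw h B G hB hG d m => ?_,
    fun r w hw h B G hB hG d => ?_, fun c n r β k x hk d m => laws_constants β k x c hk d m,
    fun n r β k x h hk d => measure_one β k x h hk d⟩
  · have h1 := law_complex w (meas_of_W w hw h) B G hB hG d m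
    rw [Fintype.card_fin] at h1
    exact h1
  · have h1 := law_real w (meas_of_W_conj w hw h) B G hB hG d m
    rw [Fintype.card_fin] at h1
    exact h1
  · obtain ⟨κ, h1⟩ := law_real w (meas_of_W_conj w hw h) B G hB hG d 0
    refine ⟨κ, fun R ρ hρ => ?_⟩
    obtain ⟨c, hc, h1⟩ := h1 R ρ hρ
    refine ⟨c, hc, fun y hy hl => ?_⟩
    have h2 := h1 (fun _ => y) (fun _ => hy) hl
    have e : Fintype.card (Fin r) - 1 / 2 = Fintype.card (Fin r) := by simp
    rw [e] at h2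
    exact measure_of_law h2

end Pool.Agent.Results.MP_a89d6d_nt.CodimensionOfNearRelations
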