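import Pool.Agent.H410.FM.Main

/-!
# Linear independence of the numbers `1, ∑ 1/F_n, ∑ L_n/F_n^2, ∑ (-1)^n/F_n^3`

A model for the linear independence of the first zeta values: the Lambert series of weights
`1, 2, 3` at a quadratic unit. Let `u, v` be the Lucas sequences
`u (n+2) = a u (n+1) + u n`, `v (n+2) = a v (n+1) + v n`, `a ≥ 1` (`a = 1`: the Fibonacci numbers
`F_n` and the Lucas numbers `L_n`), and let `k` be odd. The four real numbers
`1, ∑ 1/u_{kn}, ∑ v_{kn}/u_{kn}^2, ∑ (-1)^n/u_{kn}^3` are linearly independent over `ℚ`; a linear form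
with integral coefficients, not all `0`, of absolute value at most `H`, is at least
`exp(-C (log H)^3)` in absolute value.

Outline of the proof for `k = 1` (the files `Stm.lean` in `Pool/Agent/H410/FM`, `Pool/Agent/H410/FL`
and `Pool/Agent/H410/FC` have every step). Let `α > 1` be the root, `p = -α²`, `x = -α`, `W` a
polynomial of degree at most `2` which corresponds to a linear form `S` in the three numbers,
`c_m = W(m)/(1 + x p^m)` for all integers `m`, and
`a(K,J) = ∑_{e ≥ 1} p^{-K e} c_{e+J}`, an element of `ℚ(α) + ℚ(α) S`. The determinant of `a(K,J)`,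
`1 ≤ K ≤ 2n+1`, `-n ≤ J ≤ n`, is small (interpolation at triple zeros). If `S` is extremely close to
an integer `s`, replace `S` by `s` in the entries: the new determinant and its conjugate are both
small (the conjugate of `a(K,J)` is `p^K a(K,-2-J)`), the denominators are products of cyclotomic
values, and it does not vanish for some `n` of size `C log H` (exact pole order at a prime of `ℚ(α)`
at which `p` has order `n+1`, Bertrand's postulate).
-/

namespace Pool.Agent.Results.MP_a89d6d_nt.FibonacciIndependence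

theorem result :
    ∀ a : ℤ, 1 ≤ a → ∀ u v : ℕ → ℤ,
      u 0 = 0 → u 1 = 1 → (∀ n, u (n + 2) = a * u (n + 1) + u n) →
      v 0 = 2 → v 1 = a → (∀ n, v (n + 2) = a * v (n + 1) + v n) →
      ∀ k : ℕ, Odd k → ∃ C : ℝ, 0 < C ∧ ∀ (H : ℝ) (b₀ b₁ b₂ b₃ : ℤ), 2 ≤ H →
        |(b₀ : ℝ)| ≤ H → |(b₁ : ℝ)| ≤ H → |(b₂ : ℝ)| ≤ H → |(b₃ : ℝ)| ≤ H →
        (b₀ ≠ 0 ∨ b₁ ≠ 0 ∨ b₂ ≠ 0 ∨ b₃ ≠ 0) →
        Real.exp (-(C * Real.log H ^ 3)) ≤
          |b₀ + b₁ * (∑' n : ℕ, 1 / (u (k * (n + 1)) : ℝ)) +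
            b₂ * (∑' n : ℕ, (v (k * (n + 1)) : ℝ) / (u (k * (n + 1)) : ℝ) ^ 2) +
            b₃ * (∑' n : ℕ, (-1) ^ (n + 1) / (u (k * (n + 1)) : ℝ) ^ 3)| := by
  intro a ha u v hu0 hu1 hu2 hv0 hv1 hv2 k hk
  have hu : ∀ n, u n = Pool.Agent.H410.FC.U a (-1) n := by
    intro n
    induction n using Nat.strong_induction_on with
    | _ n ih =>
      match n with
      | 0 => rw [hu0]; rfl
      | 1 => rw [hu1]; rfl
      | (n + 2) =>
        have e : Pool.Agent.H410.FC.U a (-1) (n + 2) =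
          a * Pool.Agent.H410.FC.U a (-1) (n + 1) - (-1) * Pool.Agent.H410.FC.U a (-1) n := rfl
        rw [hu2, ih n (by omega), ih (n + 1) (by omega), e]
        ring
  have hv : ∀ n, v n = Pool.Agent.H410.FL.V a (-1) n := by
    intro n
    induction n using Nat.strong_induction_on with
    | _ n ih =>
      match n with
      | 0 => rw [hv0]; rfl
      | 1 => rw [hv1]; rfl
      | (n + 2) =>
        have e : Pool.Agent.H410.FL.V a (-1) (n + 2) =
          a * Pool.Agent.H410.FL.V a (-1) (n + 1) - (-1) * Pool.Agent.H410.FL.V a (-1) n := rfl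
        rw [hv2, ih n (by omega), ih (n + 1) (by omega), e]
        ring
  have hk1 : 1 ≤ k := hk.pos
  have hs : Pool.Agent.H410.FL.Sg ((-1) ^ k) 1 := ⟨Or.inl rfl, fun _ => rfl⟩
  obtain ⟨C, hC, h1⟩ := Pool.Agent.H410.FM.main a (-1) (Or.inl ⟨rfl, ha⟩) k hk1 1 hs
  refine ⟨C, hC, fun H b₀ b₁ b₂ b₃ hH h0 h1' h2 h3 hne => ?_⟩
  have key := h1 H b₀ ![b₁, b₂, b₃] hH h0 (by
    intro i
    fin_cases i
    · exact h1'
    · exact h2
    · exact h3) (by
    rcases hne with hn | hn | hn | hn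
    · exact Or.inl hn
    · exact Or.inr fun e => hn (congrFun e 0)
    · exact Or.inr fun e => hn (congrFun e 1)
    · exact Or.inr fun e => hn (congrFun e 2))
  have hsq : ((1 : ℤ) : ℝ) * ((-1 : ℤ) : ℝ) ^ k = -1 := by
    push_cast
    rw [hk.neg_one_pow]
    norm_num
  rw [hsq] at key
  simp only [Int.cast_one, one_pow, one_mul] at key
  simp only [hu, hv]
  exact key

end Pool.Agent.Results.MP_a89d6d_nt.FibonacciIndependence
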