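import Pool.Agent.H488.S.Gen

/-!
# `π` and the odd zeta values: functions in general position at every scale

Let `t_1, …, t_s` be ANY complex numbers, for instance `ζ(3), ζ(5), …, ζ(2s+1)`, and let `θ_1, …, θ_k`,
`η_1, …, η_n` be numbers which have a measure of algebraic independence, polynomial in the height
(`HasMeasure`), for instance `k = 1`, `θ_1 = π` and `η_l = e^(β_l)`, where the algebraic numbers `β_l`
and their complex conjugates are together linearly independent over `ℚ`; or `k = 1`, `θ_1 = π`, `n = 0`.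

If `π, ζ(3), …, ζ(2s+1)` are algebraically independent, then so are any `s + 1` functions of them with
independent gradients. The transcendence of `π` gives: of the values `u_i = f_i(t, θ, η)` of rational
functions `f_i` with integer coefficients such that any `s + 1` of the gradients
`(∂f_i/∂t, ∂f_i/∂θ)` at the point `(t, θ, η)` are linearly independent, at most `s` are algebraic over
the field `ℚ(η)`. Examples are linear forms `∑ v_j x_j` and monomials `∏ x_j^(v_j)` in
`x = (π, ζ(3), …, ζ(2s+1))` whose integral vectors `v` are in general position.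

We prove quantitative forms of this which hold at every scale, for all `t` at once. The number `u_i` is
near at the scale `H` if `|P(u_i, η)| ≤ H^(-w)` for some nonzero integer polynomial `P` of degree at
most `d` in every variable and with coefficients of absolute value at most `H`.

* Joint measure: for any `s + 1` of the numbers and nonzero polynomials `P_i` of height at most `H`,
  `max |P_i(u_i, η)| ≥ c H^(-κ)`, where `κ` does not depend on `t`. So at every large scale at most `s`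
  of the numbers are near.
* The dichotomy of scales: let exactly `s` numbers be near at the large scale `H`. Either they are
  algebraic over `ℚ(η)`, and then no other number is near at any later scale; or there is `Z ≥ H` such
  that no other number is near between `H` and `Z`, and fewer than `s` numbers are near at all scales
  between `Z` and `Z^A`. Here `w` depends on `A`, but not on `t`.
* The zero-one law: at least `s` of the numbers are algebraic of degree at most `d` over `ℚ(η)` if and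
  only if at all large scales at least `s` of them are near.

The proof: by the transfer principle of `Pool.Agent.H596.U` (near relations between arbitrary numbers
`t` and `θ, η` are exact relations at a point near `t`) the numbers `u_i` which are near at a scale
become algebraic at a point `t'` close to `t`; derivations of `ℂ` which vanish on `ℚ(η)` and whose
values at `θ` are prescribed show that `s + 1` gradients at `(t', θ, η)` are dependent. The dichotomy
follows from this and from the separation of irreducible polynomials with small values at `(u_i, η)`.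
-/

set_option autoImplicit false

namespace Pool.Agent.Results.MP_a89d6d_nt.GeneralPositionAtEveryScale

/-- the nonzero integer polynomials in the variables `σ`, of degree at most `d` in every variable,
with coefficients of absolute value at most `H` -/
def Poly (σ : Type) (d : ℕ) (H : ℝ) : Set (MvPolynomial σ ℤ) :=
  {P | P ≠ 0 ∧ (∀ i, P.degreeOf i ≤ d) ∧ ∀ m, |((P.coeff m : ℤ) : ℝ)| ≤ H}

/-- The numbers `x i` have a measure of algebraic independence, polynomial in the height for every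
degree. -/
def HasMeasure {σ : Type} (x : σ → ℂ) : Prop :=
  ∀ d : ℕ, ∃ κ : ℕ, ∃ c : ℝ, 0 < c ∧ ∀ H : ℝ, 1 ≤ H → ∀ P ∈ Poly σ d H,
    c / H ^ κ ≤ ‖MvPolynomial.aeval x P‖

/-- the variables `T_1, …, T_s`, `X_1, …, X_k` and `Y_1, …, Y_n` -/
abbrev Var (s k n : ℕ) : Type := Fin s ⊕ (Fin k ⊕ Fin n)

/-- the point `(t, θ, η)` -/
def point {s k n : ℕ} (t : Fin s → ℂ) (θ : Fin k → ℂ) (η : Fin n → ℂ) : Var s k n → ℂ :=
  Sum.elim t (Sum.elim θ η)

/-- the value of the rational function `a / b` at `z` -/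
noncomputable def frac {s k n : ℕ} (z : Var s k n → ℂ) (a b : MvPolynomial (Var s k n) ℤ) : ℂ :=
  MvPolynomial.aeval z a / MvPolynomial.aeval z b

/-- the variables `T_j` and `X_j` among all variables -/
def tx {s k n : ℕ} : Fin s ⊕ Fin k → Var s k n := Sum.map id Sum.inl

/-- `b²` times the gradient of `a / b` with respect to the variables `T_j`, `X_j`, at `z` -/
noncomputable def grad {s k n : ℕ} (z : Var s k n → ℂ) (a b : MvPolynomial (Var s k n) ℤ)
    (j : Fin s ⊕ Fin k) : ℂ :=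
  MvPolynomial.aeval z (b * MvPolynomial.pderiv (tx j) a - a * MvPolynomial.pderiv (tx j) b)

/-- The rational functions `a i / b i` are defined at `z`, and any `s + 1` of their gradients with
respect to the variables `T_j`, `X_j` are linearly independent at `z`. -/
def GeneralPosition {s k n m : ℕ} (z : Var s k n → ℂ) (a b : Fin m → MvPolynomial (Var s k n) ℤ) :
    Prop :=
  (∀ i, MvPolynomial.aeval z (b i) ≠ 0) ∧ ∀ S : Finset (Fin m), S.card = s + 1 →
    LinearIndependent ℂ fun i : S => grad z (a i) (b i)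

/-- the value `P(u, η_1, …, η_n)`; the variable `none` stands for `u` -/
noncomputable def value {n : ℕ} (η : Fin n → ℂ) (u : ℂ) (P : MvPolynomial (Option (Fin n)) ℤ) : ℂ :=
  MvPolynomial.aeval (fun o : Option (Fin n) => o.elim u η) P

/-- the indices of the numbers `u i` which are near at the scale `H` -/
def near {n m : ℕ} (η : Fin n → ℂ) (d w : ℕ) (u : Fin m → ℂ) (H : ℝ) : Set (Fin m) :=
  {i | ∃ P ∈ Poly (Option (Fin n)) d H, ‖value η (u i) P‖ ≤ 1 / H ^ w}

/-- `x` is a zero of a nonzero polynomial of degree at most `d` in every variable -/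
def Alg {n : ℕ} (η : Fin n → ℂ) (d : ℕ) (x : ℂ) : Prop :=
  ∃ P : MvPolynomial (Option (Fin n)) ℤ, P ≠ 0 ∧ (∀ o, P.degreeOf o ≤ d) ∧ value η x P = 0

/-- the joint measure of any `s + 1` of the numbers `u i` -/
def JointMeasure {n m : ℕ} (s : ℕ) (η : Fin n → ℂ) (d κ : ℕ) (u : Fin m → ℂ) : Prop :=
  ∃ c : ℝ, 0 < c ∧ ∀ S : Finset (Fin m), S.card = s + 1 → ∀ H : ℝ, 1 ≤ H →
    ∀ P : Fin m → MvPolynomial (Option (Fin n)) ℤ, (∀ i ∈ S, P i ∈ Poly (Option (Fin n)) d H) →
      ∃ i ∈ S, c / H ^ κ ≤ ‖value η (u i) (P i)‖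

/-- the dichotomy of scales and the zero-one law -/
def Law {n m : ℕ} (s : ℕ) (η : Fin n → ℂ) (d w A : ℕ) (u : Fin m → ℂ) : Prop :=
  (∃ H₀ : ℝ, ∀ H : ℝ, H₀ ≤ H → (near η d w u H).ncard ≤ s ∧ ((near η d w u H).ncard = s →
    ((∀ i ∈ near η d w u H, Alg η d (u i)) ∧
      ∀ Y : ℝ, H ≤ Y → near η d w u Y ⊆ near η d w u H) ∨
    ∃ Z : ℝ, H ≤ Z ∧ (∀ Y : ℝ, H ≤ Y → Y ≤ Z → near η d w u Y ⊆ near η d w u H) ∧
      ∀ Y : ℝ, Z < Y → Y ≤ Z ^ A → (near η d w u Y).ncard < s)) ∧
  ((∃ S : Finset (Fin m), S.card = s ∧ ∀ i ∈ S, Alg η d (u i)) ↔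
    ∃ H₁ : ℝ, ∀ H : ℝ, H₁ ≤ H → s ≤ (near η d w u H).ncard)

/-- `π, ζ(3), …, ζ(2s+1)` -/
noncomputable def piZeta (s : ℕ) : Fin s ⊕ Fin 1 → ℂ :=
  Sum.elim (fun j : Fin s => ((∑' r : ℕ, 1 / ((r : ℝ) + 1) ^ (2 * (j : ℕ) + 3) : ℝ) : ℂ))
    fun _ => (Real.pi : ℂ)

/-- any `s + 1` of the integral vectors `v i` are linearly independent -/
def VectorsInGeneralPosition {s k m : ℕ} (v : Fin m → Fin s ⊕ Fin k → ℤ) : Prop :=
  ∀ S : Finset (Fin m), S.card = s + 1 →
    LinearIndependent ℂ fun (i : S) (j : Fin s ⊕ Fin k) => (v i j : ℂ)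

open Pool.Agent.H488.M (Bd Meas vl)
open Pool.Agent.H488.S (Gp Nrs Als fr pu gr em lf mo)

lemma hasMeasure_iff {σ : Type} (x : σ → ℂ) : HasMeasure x ↔ Meas x := by
  constructor
  · intro h d
    obtain ⟨κ, c, hc, h⟩ := h d
    refine ⟨κ, c, hc, fun P hP H hH hB => ?_⟩
    have h1 := h H hH P ⟨hP, hB.1, hB.2⟩
    rwa [div_le_iff₀ (by positivity), mul_comm] at h1
  · intro h d
    obtain ⟨κ, c, hc, h⟩ := h d
    refine ⟨κ, c, hc, fun H hH P hP => ?_⟩
    have h1 := h P hP.1 H hH ⟨hP.2.1, hP.2.2⟩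
    rwa [div_le_iff₀ (by positivity), mul_comm]

lemma gp_iff {s k n m : ℕ} (z : Var s k n → ℂ) (a b : Fin m → MvPolynomial (Var s k n) ℤ) :
    GeneralPosition z a b ↔ Gp z a b := by
  unfold GeneralPosition Gp
  rw [Fintype.card_fin]
  exact Iff.rfl

lemma near_eq {s k n m : ℕ} (t : Fin s → ℂ) (θ : Fin k → ℂ) (η : Fin n → ℂ)
    (a b : Fin m → MvPolynomial (Var s k n) ℤ) (d w : ℕ) (H : ℝ) :
    near η d w (fun i => frac (point t θ η) (a i) (b i)) H = Nrs (point t θ η) a b d w H := by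
  ext i
  constructor
  · rintro ⟨P, hP, h⟩
    exact ⟨P, hP.1, ⟨hP.2.1, hP.2.2⟩, h⟩
  · rintro ⟨P, hP, hB, h⟩
    exact ⟨P, ⟨hP, hB.1, hB.2⟩, h⟩

/-- the joint measure -/
theorem joint {k n : ℕ} (θ : Fin k → ℂ) (η : Fin n → ℂ) (hθ : HasMeasure (Sum.elim θ η))
    (s m : ℕ) (a b : Fin m → MvPolynomial (Var s k n) ℤ) (d : ℕ) : ∃ κ : ℕ, ∀ t : Fin s → ℂ,
      GeneralPosition (point t θ η) a b →
      JointMeasure s η d κ fun i => frac (point t θ η) (a i) (b i) := by
  obtain ⟨κ, h⟩ := Pool.Agent.H488.S.joint (τ := Fin s) (Sum.elim θ η) ((hasMeasure_iff _).1 hθ)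
    a b d
  refine ⟨κ, fun t ht => ?_⟩
  obtain ⟨H₀, hH₀, h⟩ := h t ((gp_iff _ _ _).1 ht)
  refine ⟨1 / H₀ ^ κ, by positivity, fun S hS H hH P hP => ?_⟩
  rcases le_total H₀ H with h1 | h1
  · obtain ⟨i, hi, h2⟩ := h H h1 S (by rw [Fintype.card_fin]; exact hS) P
      fun i hi => ⟨(hP i hi).1, (hP i hi).2.1, (hP i hi).2.2⟩
    refine ⟨i, hi, ?_⟩
    rw [div_le_iff₀ (by positivity), mul_comm]
    refine le_trans ?_ h2.le
    rw [div_le_one (by positivity)]
    exact one_le_pow₀ hH₀
  · obtain ⟨i, hi, h2⟩ := h H₀ le_rfl S (by rw [Fintype.card_fin]; exact hS) P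
      fun i hi => ⟨(hP i hi).1, (hP i hi).2.1, fun l => ((hP i hi).2.2 l).trans h1⟩
    refine ⟨i, hi, ?_⟩
    have h3 : 1 / H₀ ^ κ / H ^ κ ≤ 1 / H₀ ^ κ :=
      div_le_self (by positivity) (one_le_pow₀ hH)
    refine h3.trans ?_
    rw [div_le_iff₀ (by positivity), mul_comm]
    exact h2.le

/-- the dichotomy and the zero-one law -/
theorem law {k n : ℕ} (θ : Fin k → ℂ) (η : Fin n → ℂ) (hθ : HasMeasure (Sum.elim θ η))
    (s m : ℕ) (a b : Fin m → MvPolynomial (Var s k n) ℤ) (d A : ℕ) (hA : 2 ≤ A) : ∃ w : ℕ,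
      ∀ t : Fin s → ℂ, GeneralPosition (point t θ η) a b →
      Law s η d w A fun i => frac (point t θ η) (a i) (b i) := by
  classical
  obtain ⟨w, h⟩ := Pool.Agent.H488.S.dichS (τ := Fin s) (Sum.elim θ η) ((hasMeasure_iff _).1 hθ)
    a b d A
  refine ⟨w, fun t ht => ?_⟩
  obtain ⟨H₀, hH₀, h⟩ := h t ((gp_iff _ _ _).1 ht)
  obtain ⟨N, hN⟩ : ∃ N : ℝ → Set (Fin m), N = fun H =>
      near η d w (fun i => frac (point t θ η) (a i) (b i)) H := ⟨_, rfl⟩
  have hN' : ∀ H, near η d w (fun i => frac (point t θ η) (a i) (b i)) H = N H := fun H => by rw [hN]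
  have hNe : ∀ H, Nrs (Sum.elim t (Sum.elim θ η)) a b d w H = N H := fun H => by
    rw [← hN', near_eq]; rfl
  have hd : ∀ H : ℝ, H₀ ≤ H → (N H).ncard ≤ s ∧ ((N H).ncard = s →
      ((∀ i ∈ N H, Alg η d (frac (point t θ η) (a i) (b i))) ∧
        ∀ Y : ℝ, H ≤ Y → N Y ⊆ N H) ∨
      ∃ Z : ℝ, H ≤ Z ∧ (∀ Y : ℝ, H ≤ Y → Y ≤ Z → N Y ⊆ N H) ∧
        ∀ Y : ℝ, Z < Y → Y ≤ Z ^ A → (N Y).ncard < s) := by
    intro H hH
    have h1 := h H hH
    simp only [hNe, Fintype.card_fin] at h1
    exact h1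
  unfold Law
  simp only [hN']
  refine ⟨⟨H₀, hd⟩, ?_, ?_⟩
  · rintro ⟨S, hS, hal⟩
    have hch : ∀ i, ∃ h₁ : ℝ, i ∈ S → ∀ H : ℝ, h₁ ≤ H → i ∈ N H := by
      intro i
      by_cases hi : i ∈ S
      · obtain ⟨P, hP, hPd, hPv⟩ := hal i hi
        refine ⟨max 1 (∑ l ∈ P.support, |((P.coeff l : ℤ) : ℝ)|), fun _ H hH => ?_⟩
        rw [hN]
        refine ⟨P, ⟨hP, hPd, fun l => ?_⟩, ?_⟩
        · refine le_trans ?_ ((le_max_right _ _).trans hH)
          by_cases hl : l ∈ P.support
          · exact Finset.single_le_sum (f := fun l => |((P.coeff l : ℤ) : ℝ)|)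
              (fun _ _ => abs_nonneg _) hl
          · rw [MvPolynomial.notMem_support_iff.1 hl, Int.cast_zero, abs_zero]
            exact Finset.sum_nonneg fun _ _ => abs_nonneg _
        · rw [hPv, norm_zero]
          have : 0 < H := by
            have := (le_max_left 1 (∑ l ∈ P.support, |((P.coeff l : ℤ) : ℝ)|)).trans hH
            linarith
          positivity
      · exact ⟨0, fun h => absurd h hi⟩
    choose h₁ hh₁ using hch
    refine ⟨∑ i, |h₁ i|, fun H hH => ?_⟩
    rw [← hS, ← Set.ncard_coe_finset]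
    refine Set.ncard_le_ncard fun i hi => hh₁ i hi H ?_
    exact (le_abs_self _).trans ((Finset.single_le_sum (f := fun i => |h₁ i|)
      (fun _ _ => abs_nonneg _) (Finset.mem_univ i)).trans hH)
  · rintro ⟨H₁, h1⟩
    obtain ⟨H, hH⟩ : ∃ H : ℝ, H = max (max H₀ H₁) 2 := ⟨_, rfl⟩
    have hHH₀ : H₀ ≤ H := by rw [hH]; exact (le_max_left _ _).trans (le_max_left _ _)
    have hHH₁ : H₁ ≤ H := by rw [hH]; exact (le_max_right _ _).trans (le_max_left _ _)
    have hH2 : 2 ≤ H := by rw [hH]; exact le_max_right _ _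
    have hle := h1 H hHH₁
    obtain ⟨h2, h3⟩ := hd H hHH₀
    have hcard : (N H).ncard = s := le_antisymm h2 hle
    have hfin : (N H).Finite := Set.toFinite _
    rcases h3 hcard with h4 | ⟨Z, hZ, -, h5⟩
    · refine ⟨hfin.toFinset, ?_, fun i hi => h4.1 i (by rwa [Set.Finite.mem_toFinset] at hi)⟩
      rw [← Set.ncard_eq_toFinset_card _ hfin, hcard]
    · exfalso
      have hZ2 : 2 ≤ Z := hH2.trans hZ
      have hlt : Z < Z ^ A := by
        calc Z < Z ^ 2 := by nlinarith
          _ ≤ Z ^ A := pow_le_pow_right₀ (by linarith) hA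
      have h6 := h5 (Z ^ A) hlt le_rfl
      have h7 := h1 (Z ^ A) (by linarith)
      omega

/-- a generic point gives nonvanishing odd zeta values and `π` -/
lemma piZeta_ne {s : ℕ} (j : Fin s ⊕ Fin 1) : piZeta s j ≠ 0 := by
  rcases j with j | j
  · rw [piZeta, Sum.elim_inl, Complex.ofReal_ne_zero]
    have h1 : Summable fun r : ℕ => 1 / ((r : ℝ) + 1) ^ (2 * (j : ℕ) + 3) := by
      have := (summable_nat_add_iff 1).2 (Real.summable_one_div_nat_pow (p := 2 * (j : ℕ) + 3)
        |>.2 (by omega))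
      simpa using this
    exact (h1.tsum_pos (fun r => by positivity) 0 (by norm_num)).ne'
  · rw [piZeta, Sum.elim_inr, Complex.ofReal_ne_zero]
    exact Real.pi_ne_zero

/-- **`π`, the odd zeta values and arbitrary numbers: functions in general position.** -/
theorem result :
    -- (1) numbers with a measure of algebraic independence
    (∀ (n : ℕ) (α : Fin n → ℂ), (∀ i, IsAlgebraic ℚ (α i)) → LinearIndependent ℚ α →
      HasMeasure fun i => Complex.exp (α i)) ∧
    (∀ (n : ℕ) (β : Fin n → ℂ), (∀ i, IsAlgebraic ℚ (β i)) →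
      LinearIndependent ℚ (Sum.elim β fun i => (starRingEnd ℂ) (β i)) →
      HasMeasure (Sum.elim (fun _ : Fin 1 => (Real.pi : ℂ)) fun i => Complex.exp (β i))) ∧
    -- (2) the joint measure, the dichotomy and the zero-one law for `s` arbitrary numbers
    (∀ (k n : ℕ) (θ : Fin k → ℂ) (η : Fin n → ℂ), HasMeasure (Sum.elim θ η) →
      ∀ (s m : ℕ) (a b : Fin m → MvPolynomial (Var s k n) ℤ) (d : ℕ),
        (∃ κ : ℕ, ∀ t : Fin s → ℂ, GeneralPosition (point t θ η) a b →
          JointMeasure s η d κ fun i => frac (point t θ η) (a i) (b i)) ∧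
        ∀ A : ℕ, 2 ≤ A → ∃ w : ℕ, ∀ t : Fin s → ℂ, GeneralPosition (point t θ η) a b →
          Law s η d w A fun i => frac (point t θ η) (a i) (b i)) ∧
    -- (3) linear forms and monomials in `π` and the odd zeta values
    (∀ (n : ℕ) (β : Fin n → ℂ), (∀ i, IsAlgebraic ℚ (β i)) →
      LinearIndependent ℚ (Sum.elim β fun i => (starRingEnd ℂ) (β i)) →
      ∀ (s m : ℕ) (v : Fin m → Fin s ⊕ Fin 1 → ℤ), VectorsInGeneralPosition v → ∀ d : ℕ,
        (∃ κ : ℕ, JointMeasure s (fun i => Complex.exp (β i)) d κ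
            (fun i => ∑ j, (v i j : ℂ) * piZeta s j) ∧
          JointMeasure s (fun i => Complex.exp (β i)) d κ (fun i => ∏ j, piZeta s j ^ v i j)) ∧
        ∀ A : ℕ, 2 ≤ A → ∃ w w' : ℕ, Law s (fun i => Complex.exp (β i)) d w A
            (fun i => ∑ j, (v i j : ℂ) * piZeta s j) ∧
          Law s (fun i => Complex.exp (β i)) d w' A (fun i => ∏ j, piZeta s j ^ v i j)) := by
  refine ⟨fun n α hα hli => (hasMeasure_iff _).2 (Pool.Agent.H488.M.meas_exp α hα hli),
    fun n β hβ hli => (hasMeasure_iff _).2 (Pool.Agent.H488.M.meas_pi_exp β hβ hli),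
    fun k n θ η h s m a b d => ⟨joint θ η h s m a b d, fun A hA => law θ η h s m a b d A hA⟩, ?_⟩
  intro n β hβ hli s m v hv d
  have hM : HasMeasure (Sum.elim (fun _ : Fin 1 => (Real.pi : ℂ)) fun i => Complex.exp (β i)) :=
    (hasMeasure_iff _).2 (Pool.Agent.H488.M.meas_pi_exp β hβ hli)
  obtain ⟨t, ht⟩ : ∃ t : Fin s → ℂ, t = fun j => piZeta s (Sum.inl j) := ⟨_, rfl⟩
  obtain ⟨z, hz⟩ : ∃ z : Var s 1 n → ℂ, z = point t (fun _ : Fin 1 => (Real.pi : ℂ))
      (fun i => Complex.exp (β i)) := ⟨_, rfl⟩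
  have hzj : ∀ j : Fin s ⊕ Fin 1, z (em j) = piZeta s j := by
    rintro (j | j)
    · rw [hz, ht]; rfl
    · rw [hz]; rfl
  have hzne : ∀ j : Fin s ⊕ Fin 1, z (em j) ≠ 0 := fun j => by rw [hzj]; exact piZeta_ne j
  have hv' : ∀ S : Finset (Fin m), S.card = Fintype.card (Fin s) + 1 →
      LinearIndependent ℂ fun (i : S) (j : Fin s ⊕ Fin 1) => (v i j : ℂ) := by
    rw [Fintype.card_fin]; exact hv
  have g1 : GeneralPosition z (fun i => lf (v i)) (fun _ => 1) :=
    (gp_iff _ _ _).2 (Pool.Agent.H488.S.gp_lf z v hv')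
  have g2 : GeneralPosition z (fun i => mo fun j => (v i j).toNat)
      (fun i => mo fun j => (-v i j).toNat) :=
    (gp_iff _ _ _).2 (Pool.Agent.H488.S.gp_mo z hzne v hv')
  have e1 : (fun i => frac z (lf (v i)) 1) = fun i => ∑ j, (v i j : ℂ) * piZeta s j := by
    funext i
    have := Pool.Agent.H488.S.fr_lf z (v i)
    simp only [hzj] at this
    exact this
  have e2 : (fun i => frac z (mo fun j => (v i j).toNat) (mo fun j => (-v i j).toNat)) =
      fun i => ∏ j, piZeta s j ^ v i j := by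
    funext i
    have := Pool.Agent.H488.S.fr_mo z hzne (v i)
    simp only [hzj] at this
    exact this
  refine ⟨?_, fun A hA => ?_⟩
  · obtain ⟨κ₁, h₁⟩ := joint _ _ hM s m (fun i => lf (v i)) (fun _ => 1) d
    obtain ⟨κ₂, h₂⟩ := joint _ _ hM s m (fun i => mo fun j => (v i j).toNat)
      (fun i => mo fun j => (-v i j).toNat) d
    have h₁ := h₁ t (by rw [← hz]; exact g1)
    have h₂ := h₂ t (by rw [← hz]; exact g2)
    rw [← hz, e1] at h₁
    rw [← hz, e2] at h₂
    have hmono : ∀ (κ κ' : ℕ) (u : Fin m → ℂ), κ ≤ κ' →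
        JointMeasure s (fun i => Complex.exp (β i)) d κ u →
        JointMeasure s (fun i => Complex.exp (β i)) d κ' u := by
      rintro κ κ' u hκ ⟨c, hc, h⟩
      refine ⟨c, hc, fun S hS H hH P hP => ?_⟩
      obtain ⟨i, hi, h3⟩ := h S hS H hH P hP
      refine ⟨i, hi, le_trans ?_ h3⟩
      exact div_le_div_of_nonneg_left hc.le (by positivity) (pow_le_pow_right₀ hH hκ)
    exact ⟨κ₁ + κ₂, hmono _ _ _ (Nat.le_add_right _ _) h₁, hmono _ _ _ (Nat.le_add_left _ _) h₂⟩
  · obtain ⟨w₁, h₁⟩ := law _ _ hM s m (fun i => lf (v i)) (fun _ => 1) d A hA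
    obtain ⟨w₂, h₂⟩ := law _ _ hM s m (fun i => mo fun j => (v i j).toNat)
      (fun i => mo fun j => (-v i j).toNat) d A hA
    have h₁ := h₁ t (by rw [← hz]; exact g1)
    have h₂ := h₂ t (by rw [← hz]; exact g2)
    rw [← hz, e1] at h₁
    rw [← hz, e2] at h₂
    exact ⟨w₁, w₂, h₁, h₂⟩

end Pool.Agent.Results.MP_a89d6d_nt.GeneralPositionAtEveryScale
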