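import Pool.Agent.H494.NG.Main

/-!
# Near algebraic relations of degree at most `D` between `π` and odd zeta values, at every scale

Let `t` be a real number with a transcendence measure of polynomial type in every degree, for instance `t = π`.

* Let `s ≥ 2^48`, `D ≥ 1`, and let `M` be a finite set of monomials in `x_0, x_1, x_2, …` which contains all monomials
  of degree at most `D` in the variables `x_k` with `2 k + 1 ≤ s`. Then there are `E` and `c > 0` such that at every
  scale `X ≥ 1` the polynomials `P` with monomials in `M`, with integer coefficients of absolute value at most `X` and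
  with `|P(t, ζ(3), ζ(5), …)| < c X ^ (-E)` span a space of codimension at least
  `(D + 1) / 2^17 * (s log s)^(1/3)` in the space of all polynomials with monomials in `M`. The variables `x_k` with
  `2 k + 1 > s` may have any values of absolute value at most `B X ^ B`; `E` and `c` depend on `B`, but not on these
  values.
* Windows: if `2^40 S² (b + S) ≤ s (⌊log₂ S⌋ + 1)` and the `ζ(J_k)`, `k ∈ T`, are all odd zeta values `ζ(j)`,
  `b < j ≤ s`, with at most `K < S` exceptions, the codimension is at least `(D + 1) (S - K + 1) / 2`.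

Proof. If the assertion is false there are scales `X_j → ∞` with too many near relations with exponents `E = j`. The
real sequences of polynomial growth in `X_j`, modulo those which are `O(X_j ^ (-k))` for all `k` (along an ultrafilter),
form a field `K` (`Pool/Agent/H494/NG/Res.lean`); let `k0` be its subfield generated by the sequences of integers. Near
relations become exact relations over `k0` (`Pool/Agent/H494/NG/Lin.lean`); the distance of the point
`(1, ζ(J_k))_k` to rational subspaces (`Pool/Agent/H494/DQ`) shows that `V = ⟨1, t, ζ(J_k)⟩` has a large dimension over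
`k0`, and the transcendence measure of `t` shows that `t` is transcendental over `k0`. By the growth of powers of `V`
(library, `W245.HF.grow`) the dimension of `V ^ D` is at least `(D + 1) / 2` times that of `V`.
-/

set_option autoImplicit false

open Module

namespace Pool.Agent.Results.MP_a89d6d_nt.NearRelationsOfDegree

/-- `ζ(j)` -/
noncomputable def zeta (j : ℕ) : ℝ := ∑' n : ℕ, 1 / ((n : ℝ) + 1) ^ j

/-- `t` has a transcendence measure of polynomial type in every degree -/
def HasMeasures (t : ℝ) : Prop :=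
  ∀ d : ℕ, ∃ (κ : ℕ) (c : ℝ), 0 < c ∧ ∀ P : Polynomial ℤ, P ≠ 0 → P.natDegree ≤ d →
    ∀ H : ℝ, 1 ≤ H → (∀ j, |(P.coeff j : ℝ)| ≤ H) → c / H ^ κ ≤ |Polynomial.aeval t P|

/-- the polynomials with monomials in `M`, with integer coefficients of absolute value at most `X` and with a value of
absolute value less than `δ` at `x` -/
def Near (M : Finset (ℕ →₀ ℕ)) (x : ℕ → ℝ) (X δ : ℝ) : Set (MvPolynomial ℕ ℚ) :=
  {P | P.support ⊆ M ∧ (∀ m, ∃ n : ℤ, P.coeff m = n ∧ |(n : ℝ)| ≤ X) ∧ |MvPolynomial.aeval x P| < δ}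

/-- **Near relations of degree at most `D` at every scale.** (1) `π` has measures. (2) All odd zeta values up to `s`.
(3) Windows. -/
theorem result :
    HasMeasures Real.pi ∧ ∀ t : ℝ, HasMeasures t →
      (∀ s D B : ℕ, 2 ^ 48 ≤ s → 1 ≤ D → ∀ M : Finset (ℕ →₀ ℕ),
        (∀ m : ℕ →₀ ℕ, (∀ k ∈ m.support, 2 * k + 1 ≤ s) → m.degree ≤ D → m ∈ M) →
        ∃ (E : ℕ) (c : ℝ), 0 < c ∧ ∀ x : ℕ → ℝ, x 0 = t →
          (∀ k, 1 ≤ k → 2 * k + 1 ≤ s → x k = zeta (2 * k + 1)) →
          ∀ X : ℝ, 1 ≤ X → (∀ k, |x k| ≤ B * X ^ B) →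
            (finrank ℚ (Submodule.span ℚ (Near M x X (c / X ^ E))) : ℝ) +
              ((D : ℝ) + 1) / 2 ^ 17 * ((s : ℝ) * Real.log s) ^ ((1 : ℝ) / 3) ≤ M.card) ∧
      ∀ b S s K D B : ℕ, 2 ^ 40 * (S ^ 2 * (b + S)) ≤ s * (Nat.log 2 S + 1) → K + 1 ≤ S → 1 ≤ D →
        ∀ (T : Finset ℕ) (J : ℕ → ℕ),
        Set.ncard {j : ℕ | b < j ∧ j ≤ s ∧ Odd j ∧ ∀ k ∈ T, J k ≠ j} ≤ K → ∀ M : Finset (ℕ →₀ ℕ),
        (∀ m : ℕ →₀ ℕ, m.support ⊆ insert 0 T → m.degree ≤ D → m ∈ M) →
        ∃ (E : ℕ) (c : ℝ), 0 < c ∧ ∀ x : ℕ → ℝ, x 0 = t → (∀ k ∈ T, x k = zeta (J k)) →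
          ∀ X : ℝ, 1 ≤ X → (∀ k, |x k| ≤ B * X ^ B) →
            2 * finrank ℚ (Submodule.span ℚ (Near M x X (c / X ^ E))) + (D + 1) * (S - K + 1) ≤
              2 * M.card :=
  ⟨Pool.Agent.H494.NG.tmeas_pi, fun _ ht =>
    ⟨fun _ _ B hs hD M hM => Pool.Agent.H494.NG.near_all ht hs hD B M hM,
    fun _ _ _ _ _ B hs hK hD T J hJ M hM =>
      Pool.Agent.H494.NG.near_window ht hs hK hD B T J hJ M hM⟩⟩

end Pool.Agent.Results.MP_a89d6d_nt.NearRelationsOfDegree
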